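import Pool.Agent.TH416.PNW.Base

/-!
# The data of a nilrotation
-/

set_option autoImplicit false

namespace Pool.Agent.TH416.PNW

open Topology Filter Set Pool.Agent.TH142.PN Pool.Agent.TH91.RF Pool.Agent.TH91.NB
  Pool.Agent.TH91.NB.J887

variable {N : ℕ}

section

variable {G : Type*} [Group G] [TopologicalSpace G] {g : G} (m : Mdl G g N)

/-- the identity component of the model -/
def Pg : Subgroup G where
  carrier := Set.range m.ψ
  mul_mem' := by
    rintro _ _ ⟨x, rfl⟩ ⟨y, rfl⟩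
    exact ⟨mulV m x y, (ψ_mul m x y).symm⟩
  one_mem' := ⟨0, ψ_zero m⟩
  inv_mem' := by
    rintro _ ⟨x, rfl⟩
    exact ⟨-x, ψ_neg m x⟩

/-- the elements that normalize the identity component -/
def Kg : Subgroup G where
  carrier := {h | ∀ p ∈ Pg m, h * p * h⁻¹ ∈ Pg m ∧ h⁻¹ * p * h ∈ Pg m}
  mul_mem' := by
    intro a b ha hb p hp
    refine ⟨?_, ?_⟩
    · have h1 := (ha _ (hb p hp).1).1
      have e : a * (b * p * b⁻¹) * a⁻¹ = a * b * p * (a * b)⁻¹ := by group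
      rwa [e] at h1
    · have h1 := (hb _ (ha p hp).2).2
      have e : b⁻¹ * (a⁻¹ * p * a) * b = (a * b)⁻¹ * p * (a * b) := by group
      rwa [e] at h1
  one_mem' := by
    intro p hp
    simp only [one_mul, inv_one, mul_one]
    exact ⟨hp, hp⟩
  inv_mem' := by
    intro a ha p hp
    refine ⟨(ha p hp).2 |> fun h => by rwa [inv_inv], (ha p hp).1 |> fun h => by rwa [inv_inv]⟩

lemma g_mem_Kg : g ∈ Kg m := by
  rintro _ ⟨x, rfl⟩
  exact ⟨⟨_, ψ_cj m x⟩, ⟨_, ψ_cj' m x⟩⟩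

/-- the elements that map `x0` to its orbit -/
def Lg' {X : Type*} [MulAction G X] (x0 : X) : Subgroup G where
  carrier := {h | h ∈ Kg m ∧ ∃ p ∈ Pg m, h • x0 = p • x0}
  mul_mem' := by
    rintro a b ⟨ha, p, hp, hpa⟩ ⟨hb, p', hp', hpb⟩
    refine ⟨(Kg m).mul_mem ha hb, (a * p' * a⁻¹) * p, (Pg m).mul_mem (ha p' hp').1 hp, ?_⟩
    rw [mul_smul, hpb, mul_smul _ p, ← hpa, ← mul_smul, ← mul_smul]
    congr 1
    group
  one_mem' := ⟨(Kg m).one_mem, 1, (Pg m).one_mem, rfl⟩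
  inv_mem' := by
    rintro a ⟨ha, p, hp, hpa⟩
    refine ⟨(Kg m).inv_mem ha, (a⁻¹ * p * a)⁻¹, (Pg m).inv_mem (ha p hp).2, ?_⟩
    rw [eq_inv_smul_iff, mul_smul, mul_smul, smul_inv_smul, ← hpa, inv_smul_smul]

theorem surj [IsTopologicalGroup G] {Γ : Subgroup G}
    (hmin : ∀ m : ℕ, 0 < m → ∀ x : G ⧸ Γ, Dense (Set.range (fun n : ℤ => (g ^ m) ^ n • x)))
    (x0 : G ⧸ Γ) : ∀ x : G ⧸ Γ, ∃ y : m.V, x = m.ψ y • x0 := by
  set O : Set (G ⧸ Γ) := Set.range fun y : m.V => m.ψ y • x0 with hO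
  have hopen : IsOpen O := by
    have := (isOpenMap_ψ m x0).isOpen_range
    exact this
  have hclosed : IsClosed O := by
    rw [← isOpen_compl_iff, isOpen_iff_mem_nhds]
    intro X hX
    have h1 := nhds_ψ m X (0 : m.V) (W := Set.univ) Filter.univ_mem
    rw [ψ_zero, one_smul] at h1
    refine Filter.mem_of_superset h1 ?_
    rintro _ ⟨y, _, rfl⟩ ⟨z, hz⟩
    apply hX
    refine ⟨mulV m (-y) z, ?_⟩
    have hz' : m.ψ z • x0 = m.ψ y • X := hz
    show m.ψ (mulV m (-y) z) • x0 = X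
    rw [← ψ_mul, ψ_neg, mul_smul, hz', inv_smul_smul]
  obtain ⟨_, ⟨n, rfl⟩, hn⟩ := (hmin 2 two_pos (g • x0)).exists_mem_open hopen ⟨_, ⟨0, rfl⟩⟩
  obtain ⟨y, hy⟩ := hn
  set k : ℤ := 2 * n + 1 with hk
  have hgk : g ^ k ∈ Lg' m x0 := by
    refine ⟨(Kg m).zpow_mem (g_mem_Kg m) k, m.ψ y, ⟨y, rfl⟩, ?_⟩
    have h1 : m.ψ y • x0 = (g ^ 2) ^ n • g • x0 := hy
    rw [h1, ← mul_smul]
    congr 1
    rw [hk, zpow_add_one, zpow_mul, zpow_ofNat]
  have hq : g ^ k.natAbs ∈ Lg' m x0 := by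
    rcases Int.natAbs_eq k with h | h
    · have h1 : g ^ k.natAbs = g ^ k := by
        rw [← zpow_natCast, ← h]
      rw [h1]
      exact hgk
    · have h1 : g ^ k.natAbs = (g ^ k)⁻¹ := by
        rw [← zpow_natCast, ← zpow_neg]
        congr 1
        omega
      rw [h1]
      exact (Lg' m x0).inv_mem hgk
  have hsub : (Set.range fun j : ℤ => (g ^ k.natAbs) ^ j • x0) ⊆ O := by
    rintro _ ⟨j, rfl⟩
    obtain ⟨_, p, ⟨z, rfl⟩, hp⟩ := (Lg' m x0).zpow_mem hq j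
    exact ⟨z, hp.symm⟩
  have hd := hmin k.natAbs (by omega) x0
  have h2 : (Set.univ : Set (G ⧸ Γ)) ⊆ O := by
    rw [← hd.closure_eq]
    exact closure_minimal hsub hclosed
  intro x
  obtain ⟨y, hy⟩ := h2 (Set.mem_univ x)
  exact ⟨y, hy.symm⟩

lemma exp_negD {D : Mat N} (hD : D ∈ (matFiltR N).F 1) (xa : m.V)
    (hxa : IsNilpotent.exp (-(xa : Mat N)) * IsNilpotent.exp m.M = IsNilpotent.exp D) :
    IsNilpotent.exp (-D) = IsNilpotent.exp (-m.M) * IsNilpotent.exp (xa : Mat N) := by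
  have h1 : IsNilpotent.exp D * (IsNilpotent.exp (-m.M) * IsNilpotent.exp (xa : Mat N)) = 1 := by
    rw [← hxa]
    calc _ = IsNilpotent.exp (-(xa : Mat N)) * (IsNilpotent.exp m.M * IsNilpotent.exp (-m.M)) *
          IsNilpotent.exp (xa : Mat N) := by noncomm_ring
      _ = 1 := by rw [exp_mul_neg (M1 m), mul_one, exp_neg_mul (V1 m xa xa.2)]
  calc IsNilpotent.exp (-D) = IsNilpotent.exp (-D) * (IsNilpotent.exp D *
        (IsNilpotent.exp (-m.M) * IsNilpotent.exp (xa : Mat N))) := by rw [h1, mul_one]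
    _ = _ := by rw [← mul_assoc, exp_neg_mul hD, one_mul]

/-- conjugation by `exp D` -/
lemma ψ_conjD {D : Mat N} (hD : D ∈ T m) (xa : m.V)
    (hxa : IsNilpotent.exp (-(xa : Mat N)) * IsNilpotent.exp m.M = IsNilpotent.exp D)
    (x y : m.V) (hy : (y : Mat N) = IsNilpotent.exp D * x * IsNilpotent.exp (-D)) :
    m.ψ y = ((m.ψ xa)⁻¹ * g) * m.ψ x * ((m.ψ xa)⁻¹ * g)⁻¹ := by
  have h1 : y = mulV m (mulV m (-xa) (cj m x)) xa := by
    apply Subtype.ext
    apply (matFiltR N).exp_inj (V1 m y y.2) (V1 m _ (mulV m _ xa).2)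
    rw [exp_mulV_eq, exp_mulV_eq, exp_cj, hy, exp_conj' (T1 m D hD) (V1 m x x.2),
      exp_negD m (T1 m D hD) xa hxa, ← hxa]
    show _ = IsNilpotent.exp (-(xa : Mat N)) * _ * _
    noncomm_ring
  rw [h1, ← ψ_mul, ← ψ_mul, ψ_cj, ψ_neg]
  group

/-- bounded representatives -/
lemma bdd_rep [IsTopologicalGroup G] {Γ : Subgroup G} [CompactSpace (G ⧸ Γ)] (x0 : G ⧸ Γ)
    (hs : ∀ x : G ⧸ Γ, ∃ y : m.V, x = m.ψ y • x0) :
    ∃ C : ℝ, ∀ x : m.V, ∃ y : m.V, m.ψ y • x0 = x0 ∧ ∀ i j,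
      |(IsNilpotent.exp (x : Mat N) * IsNilpotent.exp (y : Mat N)) i j| ≤ C := by
  let B : ℕ → Set m.V := fun n => {k | ∀ i j, |(Ex N (k : Mat N)) i j| < n}
  have hBo : ∀ n, IsOpen (B n) := by
    intro n
    simp only [B, Set.ofPred_forall]
    refine isOpen_iInter_of_finite fun i => isOpen_iInter_of_finite fun j => ?_
    refine isOpen_lt ?_ continuous_const
    exact ((Ex_continuous.comp continuous_subtype_val).matrix_elem i j).abs
  have hcov : (Set.univ : Set (G ⧸ Γ)) ⊆ ⋃ n, (fun y : m.V => m.ψ y • x0) '' B n := by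
    intro X _
    obtain ⟨k, rfl⟩ := hs X
    obtain ⟨n, hn⟩ := exists_nat_gt (∑ i, ∑ j, |(Ex N (k : Mat N)) i j|)
    refine Set.mem_iUnion.2 ⟨n, k, ?_, rfl⟩
    intro i j
    refine lt_of_le_of_lt ?_ hn
    refine le_trans ?_ (Finset.single_le_sum (f := fun i => ∑ j, |(Ex N (k : Mat N)) i j|)
      (fun i _ => Finset.sum_nonneg fun j _ => abs_nonneg _) (Finset.mem_univ i))
    exact Finset.single_le_sum (f := fun j => |(Ex N (k : Mat N)) i j|)
      (fun j _ => abs_nonneg _) (Finset.mem_univ j)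
  have hdir : Directed (· ⊆ ·) fun n => (fun y : m.V => m.ψ y • x0) '' B n := by
    refine directed_of_isDirected_le ?_
    intro a b hab
    refine Set.image_mono ?_
    intro k hk i j
    refine lt_of_lt_of_le (hk i j) ?_
    exact_mod_cast hab
  obtain ⟨n, hn⟩ := isCompact_univ.elim_directed_cover _
    (fun n => (isOpenMap_ψ m x0) _ (hBo n)) hcov hdir
  refine ⟨n, fun x => ?_⟩
  obtain ⟨k, hk, hkx⟩ := hn (Set.mem_univ (m.ψ x • x0))
  have hkx' : m.ψ k • x0 = m.ψ x • x0 := hkx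
  refine ⟨mulV m (-x) k, ?_, ?_⟩
  · rw [← ψ_mul, ψ_neg, mul_smul, hkx', inv_smul_smul]
  · intro i j
    have h1 : IsNilpotent.exp (x : Mat N) * IsNilpotent.exp (mulV m (-x) k : Mat N) =
        Ex N (k : Mat N) := by
      rw [exp_mulV_eq, ← mul_assoc]
      have h2 : IsNilpotent.exp (x : Mat N) * IsNilpotent.exp (((-x : m.V)) : Mat N) = 1 :=
        exp_mul_neg (V1 m x x.2)
      rw [h2, one_mul]
      exact (matFiltR N).exp_eq (V1 m k k.2)
    rw [h1]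
    exact (hk i j).le

end

end Pool.Agent.TH416.PNW

namespace Pool.Agent.TH416.PN

open Topology Filter Pool.Agent.TH142.PN
open Pool.Agent.TH416.PNW Pool.Agent.TH91.NB Pool.Agent.TH91.NB.J887

/-- the data on the orbit of a point of a compact quotient -/
theorem exists_fits {G : Type*} [Group G] [TopologicalSpace G] [IsTopologicalGroup G]
    {Γ : Subgroup G} [CompactSpace (G ⧸ Γ)] {g : G}
    (hmin : ∀ m : ℕ, 0 < m → ∀ x : G ⧸ Γ, Dense (Set.range (fun n : ℤ => (g ^ m) ^ n • x)))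
    {N : ℕ} (m : Mdl G g N) (x0 : G ⧸ Γ) :
    (∀ x : G ⧸ Γ, ∃ y : m.V, x = m.ψ y • x0) ∧ ∃ S : Dt N, m.Fits x0 S := by
  have hs := surj m hmin x0
  refine ⟨hs, ?_⟩
  obtain ⟨xa, hxa⟩ := hs (g • x0)
  have hMT := M_mem_T m
  have hxT : -(xa : Mat N) ∈ T m := V_le_T m (m.V.neg_mem xa.2)
  obtain ⟨j, hj, hexp⟩ := (latT m).exp_mul_add (idlV m) hxT hMT
    (qsmul_mem m.V _ (brTT m _ hxT _ hMT))
  set D : Mat N := -(xa : Mat N) + m.M + j with hDdef
  have hDT : D ∈ T m := (T m).add_mem ((T m).add_mem hxT hMT) (V_le_T m hj)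
  have hD1 := T1 m D hDT
  let Λ : Set (Mat N) := {y | ∃ h : y ∈ m.V, m.ψ ⟨y, h⟩ • x0 = x0}
  have hΛneg : ∀ y ∈ Λ, -y ∈ Λ := by
    rintro y ⟨hy, hy0⟩
    refine ⟨m.V.neg_mem hy, ?_⟩
    have h1 : m.ψ (-⟨y, hy⟩) • x0 = x0 := by
      rw [ψ_neg, inv_smul_eq_iff]
      exact hy0.symm
    exact h1
  have hΛmul : ∀ x ∈ Λ, ∀ y ∈ Λ, ∀ z ∈ m.V,
      IsNilpotent.exp x * IsNilpotent.exp y = IsNilpotent.exp z → z ∈ Λ := by
    rintro x ⟨hx, hx0⟩ y ⟨hy, hy0⟩ z hz h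
    refine ⟨hz, ?_⟩
    rw [← m.hom ⟨x, hx⟩ ⟨y, hy⟩ ⟨z, hz⟩ h, mul_smul, hy0, hx0]
  have hc0 : ((m.ψ xa)⁻¹ * g) • x0 = x0 := by
    rw [mul_smul, hxa, inv_smul_smul]
  have hc0' : ((m.ψ xa)⁻¹ * g)⁻¹ • x0 = x0 := by
    rw [inv_smul_eq_iff]
    exact hc0.symm
  let S : Dt N :=
    { V := m.V
      D := D
      v := m.M
      Λ := Λ
      supV := m.supV
      supD := sup_iff.2 hD1
      brV := m.brV
      brD := fun x hx => brTV m D hDT x hx
      hv := by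
        have e : m.M - D = (xa : Mat N) - j := by
          rw [hDdef]
          abel
        rw [e]
        exact m.V.sub_mem xa.2 hj
      ΛV := fun y hy => hy.1
      Λzero := by
        refine ⟨m.V.zero_mem, ?_⟩
        have h1 := ψ_zero m
        have h2 : m.ψ ⟨0, m.V.zero_mem⟩ = 1 := h1
        rw [h2, one_smul]
      Λneg := hΛneg
      Λmul := hΛmul
      Λconj := by
        rintro x ⟨hx, hx0⟩
        refine ⟨conj_mem m hDT hx, ?_⟩
        rw [ψ_conjD m hDT xa hexp ⟨x, hx⟩ ⟨_, conj_mem m hDT hx⟩ rfl, mul_smul, hc0', mul_smul,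
          hx0, hc0]
      Λconj' := by
        rintro x ⟨hx, hx0⟩
        have h1 : IsNilpotent.exp (-D) * x * IsNilpotent.exp D ∈ m.V := by
          have h2 := conj_mem m ((T m).neg_mem hDT) hx
          rwa [neg_neg] at h2
        refine ⟨h1, ?_⟩
        have h3 := ψ_conjD m hDT xa hexp ⟨_, h1⟩ ⟨x, hx⟩ (by
          show x = IsNilpotent.exp D * (IsNilpotent.exp (-D) * x * IsNilpotent.exp D) *
            IsNilpotent.exp (-D)
          calc x = (IsNilpotent.exp D * IsNilpotent.exp (-D)) * x *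
                (IsNilpotent.exp D * IsNilpotent.exp (-D)) := by
                rw [exp_mul_neg hD1, one_mul, mul_one]
            _ = _ := by noncomm_ring)
        rw [h3, mul_smul, hc0', mul_smul, smul_eq_iff_eq_inv_smul, hc0'] at hx0
        exact hx0
      Λspan := by
        obtain ⟨C, hC⟩ := bdd_rep m x0 hs
        let Γ' : Subgroup (Mat N)ˣ :=
          { carrier := {u | ∃ y ∈ Λ, (u : Mat N) = IsNilpotent.exp y}
            mul_mem' := by
              rintro a b ⟨y, hy, hya⟩ ⟨z, hz, hzb⟩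
              refine ⟨mulV m ⟨y, hy.1⟩ ⟨z, hz.1⟩, ?_, ?_⟩
              · exact hΛmul y hy z hz _ (mulV m _ _).2 (exp_mulV_eq m ⟨y, hy.1⟩ ⟨z, hz.1⟩).symm
              · rw [exp_mulV_eq, Units.val_mul, hya, hzb]
            one_mem' := ⟨0, ⟨m.V.zero_mem, by
              have h2 : m.ψ ⟨0, m.V.zero_mem⟩ = 1 := ψ_zero m
              rw [h2, one_smul]⟩, by rw [IsNilpotent.exp_zero, Units.val_one]⟩
            inv_mem' := by
              rintro a ⟨y, hy, hya⟩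
              refine ⟨-y, hΛneg y hy, ?_⟩
              have h1 : (a : Mat N) * IsNilpotent.exp (-y) = 1 := by
                rw [hya, exp_mul_neg (V1 m y hy.1)]
              exact Units.inv_eq_of_mul_eq_one_right h1 }
        intro x hx
        have h1 := log_mem_span Γ' (by
          rintro γ ⟨y, hy, hγ⟩
          exact ⟨y, sup_iff.2 (V1 m y hy.1), hγ⟩) x (sup_iff.2 (V1 m x hx)) C (by
          intro n
          obtain ⟨y, hy0, hyC⟩ := hC ((n : ℝ) • ⟨x, hx⟩)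
          have hy1 := V1 m y y.2
          refine ⟨⟨IsNilpotent.exp (y : Mat N), IsNilpotent.exp (-(y : Mat N)),
            exp_mul_neg hy1, exp_neg_mul hy1⟩, ⟨y, ⟨y.2, hy0⟩, rfl⟩, ?_⟩
          intro i j
          exact hyC i j)
        refine Submodule.span_mono ?_ h1
        rintro y ⟨hy, γ, ⟨y', hy', hγ'⟩, hγ⟩
        have h2 : y = y' := (matFiltR N).exp_inj (sup_iff.1 hy) (V1 m y' hy'.1)
          (hγ.symm.trans hγ')
        rw [h2]
        exact hy' }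
  refine ⟨S, rfl, rfl, ⟨xa, hexp, hxa⟩, ?_⟩
  intro y
  constructor
  · rintro ⟨_, h⟩
    exact h
  · intro h
    exact ⟨y.2, h⟩

end Pool.Agent.TH416.PN
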