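import Pool.Agent.TH416.PNW.Base

/-!
# Minimality of the powers implies irrationality of the data
-/

set_option autoImplicit false

namespace Pool.Agent.TH416.PNW

open Topology Filter Set Pool.Agent.TH142.PN Pool.Agent.TH91.RF Pool.Agent.TH91.NB
  Pool.Agent.TH91.NB.J887

variable {N : ℕ}

section

variable {G : Type*} [Group G] [TopologicalSpace G] {g : G} (m : Mdl G g N)

/-- the largest subspace in the kernel of a character -/
def kerS (V : Submodule ℝ (Mat N)) (χ : V → Circle) (hadd : ∀ x y, χ (x + y) = χ x * χ y) :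
    Submodule ℝ V where
  carrier := {z | ∀ t : ℝ, χ (t • z) = 1}
  add_mem' := by
    intro a b ha hb t
    rw [smul_add, hadd, ha t, hb t, mul_one]
  zero_mem' := by
    intro t
    have h : χ 0 = 1 := by
      have h1 := hadd 0 0
      rw [add_zero] at h1
      exact mul_eq_left.1 h1.symm
    rw [smul_zero, h]
  smul_mem' := by
    intro c x hx t
    rw [smul_smul]
    exact hx _

theorem core [IsTopologicalGroup G] {Γ : Subgroup G}
    (hmin : ∀ m : ℕ, 0 < m → ∀ x : G ⧸ Γ, Dense (Set.range (fun n : ℤ => (g ^ m) ^ n • x)))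
    (x0 : G ⧸ Γ) (hsurj : ∀ x : G ⧸ Γ, ∃ y : m.V, x = m.ψ y • x0)
    (χ : m.V → Circle) (hc : Continuous χ) (hadd : ∀ x y, χ (x + y) = χ x * χ y)
    (D : Mat N) (hvD : m.M - D ∈ m.V)
    (hbr : ∀ x y z : m.V, (z : Mat N) = (x : Mat N) * y - y * x → χ z = 1)
    (hbrD : ∀ x z : m.V, (z : Mat N) = D * (x : Mat N) - x * D → χ z = 1)
    (hΛ : ∀ y : m.V, m.ψ y • x0 = x0 → χ y = 1) (q : ℕ) (hq : 0 < q)
    (hχq : χ ⟨m.M - D, hvD⟩ ^ q = 1) (xa : m.V)
    (hxa : IsNilpotent.exp (-(xa : Mat N)) * IsNilpotent.exp m.M = IsNilpotent.exp D)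
    (hga : g • x0 = m.ψ xa • x0) : ∀ x, χ x = 1 := by
  have hχ0 : χ 0 = 1 := by
    have h1 := hadd 0 0
    rw [add_zero] at h1
    exact mul_eq_left.1 h1.symm
  have hχneg : ∀ x, χ (-x) = (χ x)⁻¹ := by
    intro x
    apply eq_inv_of_mul_eq_one_left
    rw [← hadd, neg_add_cancel, hχ0]
  -- the ideal
  set J : Submodule ℝ (Mat N) := (kerS m.V χ hadd).map m.V.subtype with hJdef
  have hJmem : ∀ z : m.V, (z : Mat N) ∈ J → χ z = 1 := by
    intro z hz
    obtain ⟨w, hw, hwz⟩ := Submodule.mem_map.1 hz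
    have h1 : w = z := Subtype.ext hwz
    have h2 : χ ((1 : ℝ) • w) = 1 := hw 1
    rwa [one_smul, h1] at h2
  have hJV : J ≤ m.V := by
    intro z hz
    obtain ⟨w, hw, rfl⟩ := Submodule.mem_map.1 hz
    exact w.2
  have hJ1 : ∀ x ∈ m.V, ∀ y ∈ m.V, x * y - y * x ∈ J := by
    intro x hx y hy
    refine Submodule.mem_map.2 ⟨⟨_, m.brV x hx y hy⟩, ?_, rfl⟩
    intro t
    refine hbr (t • ⟨x, hx⟩) ⟨y, hy⟩ _ ?_
    show t • (x * y - y * x) = (t • x) * y - y * (t • x)
    rw [smul_mul_assoc, mul_smul_comm, smul_sub]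
  have hJD : ∀ y ∈ m.V, D * y - y * D ∈ J := by
    intro y hy
    have h1 : D * y - y * D ∈ m.V := by
      have e : D * y - y * D = (m.M * y - y * m.M) - ((m.M - D) * y - y * (m.M - D)) := by
        noncomm_ring
      rw [e]
      exact m.V.sub_mem (m.brM y hy) (m.brV _ hvD y hy)
    refine Submodule.mem_map.2 ⟨⟨_, h1⟩, ?_, rfl⟩
    intro t
    refine hbrD (t • ⟨y, hy⟩) _ ?_
    show t • (D * y - y * D) = D * (t • y) - (t • y) * D
    rw [smul_mul_assoc, mul_smul_comm, smul_sub]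
  have hJM : ∀ y ∈ m.V, m.M * y - y * m.M ∈ J := by
    intro y hy
    have e : m.M * y - y * m.M = (D * y - y * D) + ((m.M - D) * y - y * (m.M - D)) := by
      noncomm_ring
    rw [e]
    exact J.add_mem (hJD y hy) (hJ1 _ hvD y hy)
  have hJT : ∀ u ∈ T m, ∀ w ∈ T m, u * w - w * u ∈ J := br_TT' hJ1 hJM
  have hidl : LieIdl N (T m).toAddSubgroup J.toAddSubgroup :=
    idl (hJV.trans (V_le_T m)) fun x hx y hy => hJT x hx y (V_le_T m (hJV hy))
  have key1 : ∀ {x y z : Mat N}, x ∈ T m → y ∈ T m → z ∈ (matFiltR N).F 1 →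
      IsNilpotent.exp x * IsNilpotent.exp y = IsNilpotent.exp z → z - x - y ∈ J := by
    intro x y z hx hy hz h
    obtain ⟨j, hj, h1⟩ := (latT m).exp_mul_add hidl hx hy (qsmul_mem J _ (hJT x hx y hy))
    have h2 : x + y + j ∈ T m := (T m).add_mem ((T m).add_mem hx hy) (V_le_T m (hJV hj))
    have h3 := (matFiltR N).exp_inj hz (T1 m _ h2) (h.symm.trans h1)
    rw [h3]
    have e : x + y + j - x - y = j := by abel
    rw [e]
    exact hj
  have key2 : ∀ x x' : m.V, (x' : Mat N) - x ∈ J → χ x' = χ x := by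
    intro x x' h
    have h1 := hJmem (x' - x) h
    rw [sub_eq_add_neg, hadd, hχneg] at h1
    exact mul_inv_eq_one.1 h1
  have hmul : ∀ x y : m.V, χ (mulV m x y) = χ x * χ y := by
    intro x y
    rw [← hadd]
    apply key2
    have h1 := key1 (V_le_T m x.2) (V_le_T m y.2) (V1 m _ (mulV m x y).2)
      (exp_mulV_eq m x y).symm
    rwa [sub_sub] at h1
  have hMF := M_mem_T m
  have hcj : ∀ x : m.V, χ (cj m x) = χ x := by
    intro x
    apply key2
    obtain ⟨z, hz, h1⟩ := (latT m).exp_mul hMF (V_le_T m x.2)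
    have h2 := key1 hMF (V_le_T m x.2) (T1 m z hz) h1
    have h3 := exp_cj m x
    rw [h1] at h3
    have h4 := key1 hz ((T m).neg_mem hMF) (V1 m _ (cj m x).2) h3.symm
    have e : (cj m x : Mat N) - x = ((cj m x : Mat N) - z - -m.M) + (z - m.M - x) := by abel
    rw [e]
    exact J.add_mem h4 h2
  have hDT : D ∈ T m := by
    have e : D = m.M - (m.M - D) := by abel
    rw [e]
    exact (T m).sub_mem hMF (V_le_T m hvD)
  have hχa : χ xa ^ q = 1 := by
    rw [← hχq]
    congr 1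
    apply Eq.symm
    apply key2
    have h1 : IsNilpotent.exp (xa : Mat N) * IsNilpotent.exp D = IsNilpotent.exp m.M := by
      rw [← hxa, ← mul_assoc, exp_mul_neg (V1 m xa xa.2), one_mul]
    have h2 := key1 (V_le_T m xa.2) hDT (M1 m) h1
    have e : ((⟨m.M - D, hvD⟩ : m.V) : Mat N) - xa = m.M - xa - D := by
      show m.M - D - xa = m.M - xa - D
      abel
    rw [e]
    exact h2
  -- the function
  choose f hf using hsurj
  set F : G ⧸ Γ → Circle := fun X => χ (f X) with hFdef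
  have hF : ∀ x : m.V, F (m.ψ x • x0) = χ x := by
    intro x
    have h1 := hf (m.ψ x • x0)
    have h2 : m.ψ (mulV m (-(f (m.ψ x • x0))) x) • x0 = x0 := by
      rw [← ψ_mul, ψ_neg, mul_smul]
      nth_rewrite 2 [h1]
      rw [inv_smul_smul]
    have h3 := hΛ _ h2
    rw [hmul, hχneg] at h3
    exact (inv_mul_eq_one.1 h3)
  have hFc : Continuous F := by
    rw [continuous_iff_continuousAt]
    intro X
    rw [hf X]
    intro O hO
    have h1 : χ ⁻¹' O ∈ 𝓝 (f X) := by
      apply hc.continuousAt.preimage_mem_nhds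
      rw [hF] at hO
      exact hO
    rw [Filter.mem_map]
    refine Filter.mem_of_superset (nhds_ψ m x0 (f X) h1) ?_
    rintro _ ⟨z, hz, rfl⟩
    show F (m.ψ z • x0) ∈ O
    rw [hF]
    exact hz
  have hFg : ∀ X, F (g • X) = χ xa * F X := by
    intro X
    obtain ⟨x, rfl⟩ : ∃ x, X = m.ψ x • x0 := ⟨_, hf X⟩
    have h1 : g • m.ψ x • x0 = m.ψ (mulV m (cj m x) xa) • x0 := by
      rw [← ψ_mul, ψ_cj, mul_smul, ← hga, ← mul_smul, ← mul_smul]
      congr 1
      group
    rw [h1, hF, hmul, hcj, hF, mul_comm]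
  have hFgq : ∀ (k : ℕ) X, F (g ^ k • X) = χ xa ^ k * F X := by
    intro k
    induction k with
    | zero => intro X; simp
    | succ k ih =>
      intro X
      rw [pow_succ', mul_smul, hFg, ih, pow_succ', mul_assoc]
  let K : Subgroup G :=
    { carrier := {h | ∀ X, F (h • X) = F X}
      mul_mem' := by
        intro a b ha hb X
        rw [mul_smul, ha, hb]
      one_mem' := by
        intro X
        rw [one_smul]
      inv_mem' := by
        intro a ha X
        have h1 := ha (a⁻¹ • X)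
        rw [smul_inv_smul] at h1
        exact h1.symm }
  have hgK : g ^ q ∈ K := by
    intro X
    rw [hFgq, hχa, one_mul]
  have hconst : F = fun _ => F x0 := by
    refine Continuous.ext_on (hmin q hq x0) hFc continuous_const ?_
    rintro _ ⟨n, rfl⟩
    exact K.zpow_mem hgK n x0
  intro x
  rw [← hF x, hconst]
  show F x0 = 1
  have h1 := hF 0
  rw [ψ_zero, one_smul] at h1
  rw [h1, hχ0]

end

end Pool.Agent.TH416.PNW

namespace Pool.Agent.TH416.PN

open Topology Filter Pool.Agent.TH142.PN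
open Pool.Agent.TH416.PNW Pool.Agent.TH91.NB Pool.Agent.TH91.NB.J887

/-- minimality of all the powers implies irrationality of the data -/
theorem irr_of_fits {G : Type*} [Group G] [TopologicalSpace G] [IsTopologicalGroup G]
    {Γ : Subgroup G} {g : G}
    (hmin : ∀ m : ℕ, 0 < m → ∀ x : G ⧸ Γ, Dense (Set.range (fun n : ℤ => (g ^ m) ^ n • x)))
    {N : ℕ} (m : Mdl G g N) (x0 : G ⧸ Γ) (hsurj : ∀ x : G ⧸ Γ, ∃ y : m.V, x = m.ψ y • x0)
    {S : Dt N} (h : m.Fits x0 S) : S.Irr := by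
  intro χ hc hadd hbr hbrD hΛ hq
  obtain ⟨q, hq, hχq⟩ := hq
  obtain ⟨xa, hxa, hga⟩ := h.xa
  have hVm : ∀ x : m.V, (x : Mat N) ∈ S.V := fun x => by rw [h.hV]; exact x.2
  have hmV : ∀ x : S.V, (x : Mat N) ∈ m.V := fun x => by rw [← h.hV]; exact x.2
  let ι : m.V → S.V := fun x => ⟨x, hVm x⟩
  have hι : Continuous ι := Continuous.subtype_mk continuous_subtype_val _
  have hvD : m.M - S.D ∈ m.V := by
    have h1 := S.hv
    rwa [h.hv, h.hV] at h1
  have main := core m hmin x0 hsurj (fun x => χ (ι x)) (hc.comp hι)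
    (fun x y => hadd (ι x) (ι y)) S.D hvD
    (by
      intro x y z hz
      have h1 := hbr (ι x) (ι y)
      have h2 : ι z = ⟨(ι x : Mat N) * ι y - ι y * ι x, S.brV _ (ι x).2 _ (ι y).2⟩ :=
        Subtype.ext hz
      show χ (ι z) = 1
      rw [h2]
      exact h1)
    (by
      intro x z hz
      have h1 := hbrD (ι x)
      have h2 : ι z = ⟨S.D * (ι x : Mat N) - ι x * S.D, S.brD _ (ι x).2⟩ := Subtype.ext hz
      show χ (ι z) = 1
      rw [h2]
      exact h1)
    (by
      intro y hy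
      exact hΛ (ι y) ((h.Λ y).2 hy))
    q hq
    (by
      have h2 : ι ⟨m.M - S.D, hvD⟩ = ⟨S.v - S.D, S.hv⟩ := Subtype.ext (by
        show m.M - S.D = S.v - S.D
        rw [h.hv])
      show χ (ι ⟨m.M - S.D, hvD⟩) ^ q = 1
      rw [h2]
      exact hχq)
    xa hxa hga
  intro x
  exact main ⟨x, hmV x⟩

end Pool.Agent.TH416.PN
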