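import Pool.Agent.TH416.PNW.Base

/-!
# Return times from the matrix model
-/

set_option autoImplicit false

namespace Pool.Agent.TH416.PNW

open Topology Filter Set Pool.Agent.TH142.PN Pool.Agent.TH91.RF Pool.Agent.TH91.NB
  Pool.Agent.TH91.NB.J887

variable {N : ℕ}

lemma exp_add_smul {X : Mat N} (hX : X ∈ (matFiltR N).F 1) (s t : ℝ) :
    IsNilpotent.exp ((s + t) • X) = IsNilpotent.exp (s • X) * IsNilpotent.exp (t • X) := by
  rw [add_smul]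
  exact IsNilpotent.exp_add_of_commute (((Commute.refl X).smul_left s).smul_right t)
    (nil1 (rsmul_mem s hX)) (nil1 (rsmul_mem t hX))

lemma exists_eps {m : ℕ} {O : Set (Mat m)} (hO : O ∈ 𝓝 (1 : Mat m)) :
    ∃ ε : ℝ, 0 < ε ∧ ∀ E : Mat m, (∀ a b, |E a b - (1 : Mat m) a b| < ε) → E ∈ O := by
  have key : ∀ (O' : Set (Fin m → Fin m → ℝ)) (I : Fin m → Fin m → ℝ), O' ∈ 𝓝 I →
      ∃ ε : ℝ, 0 < ε ∧ ∀ E : Fin m → Fin m → ℝ, (∀ a b, |E a b - I a b| < ε) → E ∈ O' := by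
    intro O' I h1
    obtain ⟨ε, hε, h2⟩ := Metric.mem_nhds_iff.1 h1
    refine ⟨ε, hε, fun E hE => h2 ?_⟩
    rw [Metric.mem_ball, dist_pi_lt_iff hε]
    intro a
    rw [dist_pi_lt_iff hε]
    intro b
    rw [Real.dist_eq]
    exact hE a b
  exact key O (1 : Mat m) hO

section

variable {G : Type*} [Group G] [TopologicalSpace G] {g : G} (m : Mdl G g N)

/-- the power of the translation in terms of the matrices -/
lemma pow_eq {D : Mat N} (hD : D ∈ (matFiltR N).F 1) (xa : m.V)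
    (hxa : IsNilpotent.exp (-(xa : Mat N)) * IsNilpotent.exp m.M = IsNilpotent.exp D) (q : ℤ) :
    ∃ y : m.V, IsNilpotent.exp (y : Mat N) =
        IsNilpotent.exp ((q : ℝ) • m.M) * IsNilpotent.exp ((-(q : ℝ)) • D) ∧
      g ^ q * (((m.ψ xa)⁻¹ * g) ^ q)⁻¹ = m.ψ y := by
  set c : G := (m.ψ xa)⁻¹ * g with hc
  have hDneg : IsNilpotent.exp (-D) = IsNilpotent.exp (-m.M) * IsNilpotent.exp (xa : Mat N) := by
    have h1 : IsNilpotent.exp D * (IsNilpotent.exp (-m.M) * IsNilpotent.exp (xa : Mat N)) = 1 := by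
      rw [← hxa]
      calc _ = IsNilpotent.exp (-(xa : Mat N)) * (IsNilpotent.exp m.M * IsNilpotent.exp (-m.M)) *
            IsNilpotent.exp (xa : Mat N) := by noncomm_ring
        _ = 1 := by rw [exp_mul_neg (M1 m), mul_one, exp_neg_mul (V1 m xa xa.2)]
    calc IsNilpotent.exp (-D) = IsNilpotent.exp (-D) * (IsNilpotent.exp D *
          (IsNilpotent.exp (-m.M) * IsNilpotent.exp (xa : Mat N))) := by rw [h1, mul_one]
      _ = _ := by rw [← mul_assoc, exp_neg_mul hD, one_mul]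
  have hup : ∀ q : ℤ, (∃ y : m.V, IsNilpotent.exp (y : Mat N) =
        IsNilpotent.exp ((q : ℝ) • m.M) * IsNilpotent.exp ((-(q : ℝ)) • D) ∧
      g ^ q * (c ^ q)⁻¹ = m.ψ y) → (∃ y : m.V, IsNilpotent.exp (y : Mat N) =
        IsNilpotent.exp (((q + 1 : ℤ) : ℝ) • m.M) * IsNilpotent.exp ((-((q + 1 : ℤ) : ℝ)) • D) ∧
      g ^ (q + 1) * (c ^ (q + 1))⁻¹ = m.ψ y) := by
    rintro q ⟨y, hy1, hy2⟩
    refine ⟨mulV m (cj m y) xa, ?_, ?_⟩
    · rw [exp_mulV_eq, exp_cj, hy1]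
      push_cast
      have e1 : (q : ℝ) + 1 = 1 + q := add_comm _ _
      have e2 : -(1 + (q : ℝ)) = -q + -1 := by ring
      rw [e1, e2, exp_add_smul (M1 m), exp_add_smul hD, one_smul, neg_one_smul, hDneg]
      noncomm_ring
    · have eg : g ^ (q + 1) = g * g ^ q := by rw [add_comm, zpow_one_add]
      have ec : c ^ (q + 1) = c * c ^ q := by rw [add_comm, zpow_one_add]
      have ec' : c⁻¹ = g⁻¹ * m.ψ xa := by rw [hc]; group
      rw [← ψ_mul, ψ_cj, ← hy2, eg, ec, mul_inv_rev, ec']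
      simp only [mul_assoc]
  have hdown : ∀ q : ℤ, (∃ y : m.V, IsNilpotent.exp (y : Mat N) =
        IsNilpotent.exp ((q : ℝ) • m.M) * IsNilpotent.exp ((-(q : ℝ)) • D) ∧
      g ^ q * (c ^ q)⁻¹ = m.ψ y) → (∃ y : m.V, IsNilpotent.exp (y : Mat N) =
        IsNilpotent.exp (((q - 1 : ℤ) : ℝ) • m.M) * IsNilpotent.exp ((-((q - 1 : ℤ) : ℝ)) • D) ∧
      g ^ (q - 1) * (c ^ (q - 1))⁻¹ = m.ψ y) := by
    rintro q ⟨y, hy1, hy2⟩
    refine ⟨cj' m (mulV m y (-xa)), ?_, ?_⟩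
    · rw [exp_cj', exp_mulV_eq, hy1]
      push_cast
      have e1 : (q : ℝ) - 1 = -1 + q := by ring
      have e2 : -(-1 + (q : ℝ)) = -q + 1 := by ring
      rw [e1, e2, exp_add_smul (M1 m), exp_add_smul hD, one_smul, neg_one_smul, ← hxa]
      noncomm_ring
    · have e5 : q - 1 = -1 + q := by ring
      have eg : g ^ (q - 1) = g⁻¹ * g ^ q := by rw [e5, zpow_add, zpow_neg_one]
      have ec : c ^ (q - 1) = c⁻¹ * c ^ q := by rw [e5, zpow_add, zpow_neg_one]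
      rw [ψ_cj', ← ψ_mul, ψ_neg, ← hy2, eg, ec, mul_inv_rev, inv_inv]
      nth_rewrite 2 [hc]
      simp only [mul_assoc]
  induction q using Int.induction_on with
  | zero =>
    refine ⟨0, ?_, ?_⟩
    · simp
    · rw [ψ_zero]; simp
  | succ i ih => exact hup _ ih
  | pred i ih => exact hdown _ ih

end

end Pool.Agent.TH416.PNW

namespace Pool.Agent.TH416.PN

open Topology Filter Pool.Agent.TH142.PN
open Pool.Agent.TH416.PNW Pool.Agent.TH91.NB Pool.Agent.TH91.NB.J887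

/-- return times from the matrix model -/
theorem near_of_fits {G : Type*} [Group G] [TopologicalSpace G] [IsTopologicalGroup G]
    {Γ : Subgroup G} {g : G} {N : ℕ} (m : Mdl G g N) (x0 : G ⧸ Γ) {S : Dt N} (h : m.Fits x0 S)
    {U : Set (G ⧸ Γ)} (hU : U ∈ 𝓝 x0) :
    ∃ ε : ℝ, 0 < ε ∧ ∀ q : ℤ, ∀ x ∈ S.Λ, (∀ a b,
      |(IsNilpotent.exp ((q : ℝ) • S.v) * IsNilpotent.exp (-((q : ℝ) • S.D)) *
        IsNilpotent.exp x) a b - (1 : Matrix (Fin N) (Fin N) ℝ) a b| < ε) → g ^ q • x0 ∈ U := by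
  have hW : (fun y : m.V => m.ψ y • x0) ⁻¹' U ∈ 𝓝 (0 : m.V) := by
    apply (continuous_orb m x0).continuousAt.preimage_mem_nhds
    show U ∈ 𝓝 (m.ψ 0 • x0)
    rwa [ψ_zero, one_smul]
  rw [nhds_subtype_eq_comap, mem_comap] at hW
  obtain ⟨O, hO, hOW⟩ := hW
  have hO' : (Lg N N) ⁻¹' O ∈ 𝓝 (1 : Mat N) := by
    apply (Lg_continuous N).continuousAt.preimage_mem_nhds
    have h1 := Lg_exp (Submodule.zero_mem ((matFiltR N).F 1))
    rw [IsNilpotent.exp_zero] at h1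
    rw [h1]
    exact hO
  obtain ⟨ε, hε, hε2⟩ := exists_eps hO'
  refine ⟨ε, hε, fun q x hx hclose => ?_⟩
  obtain ⟨xa, hxa, hga⟩ := h.xa
  obtain ⟨y, hy1, hy2⟩ := pow_eq m (mem1 S.supD) xa hxa q
  have hxV : x ∈ m.V := by
    rw [← h.hV]
    exact S.ΛV hx
  have hx0 : m.ψ ⟨x, hxV⟩ • x0 = x0 := (h.Λ ⟨x, hxV⟩).1 hx
  have hc : ((m.ψ xa)⁻¹ * g) • x0 = x0 := by
    rw [mul_smul, hga, inv_smul_smul]
  have hcq : (((m.ψ xa)⁻¹ * g) ^ q) • x0 = x0 := by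
    have h1 : ((m.ψ xa)⁻¹ * g) ∈ MulAction.stabilizer G x0 := hc
    exact (MulAction.stabilizer G x0).zpow_mem h1 q
  have hg : g ^ q • x0 = m.ψ (mulV m y ⟨x, hxV⟩) • x0 := by
    rw [← ψ_mul, mul_smul, hx0, ← hy2, mul_smul]
    rw [inv_smul_eq_iff.2 hcq.symm]
  rw [hg]
  have h2 := hε2 (IsNilpotent.exp (mulV m y ⟨x, hxV⟩ : Mat N)) (by
    intro a b
    rw [exp_mulV_eq, hy1]
    have h3 := hclose a b
    rw [h.hv, ← neg_smul] at h3
    exact h3)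
  have h4 : (mulV m y ⟨x, hxV⟩ : Mat N) ∈ O := by
    have h5 : Lg N N (IsNilpotent.exp (mulV m y ⟨x, hxV⟩ : Mat N)) ∈ O := h2
    rwa [Lg_exp (V1 m _ (mulV m y ⟨x, hxV⟩).2)] at h5
  exact hOW h4

end Pool.Agent.TH416.PN
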