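import Mathlib
import Pool.Agent.TH142.PN.Mdl
import Pool.Agent.TH73.J887

/-!
# Unipotent models: basic facts
-/

set_option autoImplicit false

namespace Pool.Agent.TH416.PNW

open Topology Filter Set Pool.Agent.TH142.PN Pool.Agent.TH91.RF Pool.Agent.TH91.NB
  Pool.Agent.TH91.NB.J887

variable {N : ℕ}

/-- matrices -/
abbrev Mat (N : ℕ) := Matrix (Fin N) (Fin N) ℝ

/-! ### Lie algebras of strictly upper triangular matrices -/

lemma mem1 {x : Mat N} (h : ∀ i j, j ≤ i → x i j = 0) : x ∈ (matFiltR N).F 1 := sup_iff.1 h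

lemma nil1 {x : Mat N} (h : x ∈ (matFiltR N).F 1) : IsNilpotent x := (matFiltR N).nilp h

lemma qsmul_mem (V : Submodule ℝ (Mat N)) (q : ℚ) {x : Mat N} (hx : x ∈ V) : q • x ∈ V := by
  rw [← Rat.cast_smul_eq_qsmul ℝ]
  exact V.smul_mem _ hx

lemma rsmul_mem {k : ℕ} (t : ℝ) {x : Mat N} (hx : x ∈ (matFiltR N).F k) :
    t • x ∈ (matFiltR N).F k := (FR N k).smul_mem t hx

/-- the extension of `V` by `M` -/
def TT (V : Submodule ℝ (Mat N)) (M : Mat N) : Submodule ℝ (Mat N) := V ⊔ Submodule.span ℝ {M}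

lemma mem_TT {V : Submodule ℝ (Mat N)} {M u : Mat N} :
    u ∈ TT V M ↔ ∃ x ∈ V, ∃ t : ℝ, x + t • M = u := by
  unfold TT
  rw [Submodule.mem_sup]
  constructor
  · rintro ⟨x, hx, y, hy, rfl⟩
    obtain ⟨t, rfl⟩ := Submodule.mem_span_singleton.1 hy
    exact ⟨x, hx, t, rfl⟩
  · rintro ⟨x, hx, t, rfl⟩
    exact ⟨x, hx, t • M, Submodule.smul_mem _ _ (Submodule.mem_span_singleton_self M), rfl⟩

lemma V_le_TT (V : Submodule ℝ (Mat N)) (M : Mat N) : V ≤ TT V M := le_sup_left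

lemma M_mem_TT (V : Submodule ℝ (Mat N)) (M : Mat N) : M ∈ TT V M :=
  le_sup_right (a := V) (Submodule.mem_span_singleton_self M)

/-- brackets of elements of the extension with elements of an ideal -/
lemma br_TT {V J : Submodule ℝ (Mat N)} {M : Mat N}
    (h1 : ∀ x ∈ V, ∀ y ∈ J, x * y - y * x ∈ J) (h2 : ∀ y ∈ J, M * y - y * M ∈ J) :
    ∀ u ∈ TT V M, ∀ y ∈ J, u * y - y * u ∈ J := by
  intro u hu y hy
  obtain ⟨x, hx, t, rfl⟩ := mem_TT.1 hu
  have e : (x + t • M) * y - y * (x + t • M) = (x * y - y * x) + t • (M * y - y * M) := by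
    rw [add_mul, mul_add, smul_mul_assoc, mul_smul_comm, smul_sub]
    abel
  rw [e]
  exact J.add_mem (h1 x hx y hy) (J.smul_mem t (h2 y hy))

/-- brackets in the extension -/
lemma br_TT' {V J : Submodule ℝ (Mat N)} {M : Mat N}
    (h1 : ∀ x ∈ V, ∀ y ∈ V, x * y - y * x ∈ J) (h2 : ∀ y ∈ V, M * y - y * M ∈ J) :
    ∀ u ∈ TT V M, ∀ w ∈ TT V M, u * w - w * u ∈ J := by
  intro u hu w hw
  obtain ⟨x, hx, t, rfl⟩ := mem_TT.1 hu
  obtain ⟨y, hy, s, rfl⟩ := mem_TT.1 hw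
  have e : (x + t • M) * (y + s • M) - (y + s • M) * (x + t • M) =
      (x * y - y * x) + t • (M * y - y * M) - s • (M * x - x * M) := by
    simp only [add_mul, mul_add, smul_mul_assoc, mul_smul_comm, smul_sub, smul_add, smul_smul]
    rw [mul_comm s t]
    abel
  rw [e]
  exact J.sub_mem (J.add_mem (h1 x hx y hy) (J.smul_mem t (h2 y hy))) (J.smul_mem s (h2 x hx))

lemma lat {V : Submodule ℝ (Mat N)} (hV : ∀ x ∈ V, x ∈ (matFiltR N).F 1)
    (hbr : ∀ x ∈ V, ∀ y ∈ V, x * y - y * x ∈ V) : LieLat (matFiltR N) V.toAddSubgroup :=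
  ⟨fun x hx => hV x hx, fun u hu v hv => qsmul_mem V _ (hbr u hu v hv)⟩

lemma idl {V J : Submodule ℝ (Mat N)} (hle : J ≤ V)
    (hbr : ∀ x ∈ V, ∀ y ∈ J, x * y - y * x ∈ J) : LieIdl N V.toAddSubgroup J.toAddSubgroup :=
  ⟨hle, fun u hu v hv => qsmul_mem J _ (hbr u hu v hv)⟩

lemma exp_neg_mul {x : Mat N} (h : x ∈ (matFiltR N).F 1) :
    IsNilpotent.exp (-x) * IsNilpotent.exp x = 1 := IsNilpotent.exp_neg_mul_exp_self (nil1 h)

lemma exp_mul_neg {x : Mat N} (h : x ∈ (matFiltR N).F 1) :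
    IsNilpotent.exp x * IsNilpotent.exp (-x) = 1 := IsNilpotent.exp_mul_exp_neg_self (nil1 h)

/-- conjugation preserves ideals -/
lemma conj_mem' {V J : Submodule ℝ (Mat N)} (hV : ∀ x ∈ V, x ∈ (matFiltR N).F 1)
    (hbr : ∀ x ∈ V, ∀ y ∈ V, x * y - y * x ∈ V) (hle : J ≤ V)
    (hbrJ : ∀ x ∈ V, ∀ y ∈ J, x * y - y * x ∈ J) {w x : Mat N} (hw : w ∈ V) (hx : x ∈ J) :
    IsNilpotent.exp w * x * IsNilpotent.exp (-w) ∈ J := by
  have hT := lat hV hbr
  have hJ := idl hle hbrJ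
  have h1 : IsNilpotent.exp w * x * IsNilpotent.exp (-w) =
      ∑ k ∈ Finset.range (N + 1), ((k.factorial : ℚ))⁻¹ • (adr (-w))^[k] x := by
    rw [mul_assoc, (matFiltR N).mul_exp (hV _ (V.neg_mem hw)) (hV _ (hle hx)), ← mul_assoc,
      exp_mul_neg (hV w hw), one_mul]
  rw [h1]
  refine Submodule.sum_mem _ fun k hk => ?_
  exact hT.fact_adr_mem hJ (T := V.toAddSubgroup) (J := J.toAddSubgroup) hw hx k
    (Finset.mem_range.1 hk)

lemma exp_conj' {w x : Mat N} (hw : w ∈ (matFiltR N).F 1) (hx : x ∈ (matFiltR N).F 1) :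
    IsNilpotent.exp (IsNilpotent.exp w * x * IsNilpotent.exp (-w)) =
      IsNilpotent.exp w * IsNilpotent.exp x * IsNilpotent.exp (-w) :=
  exp_conj (exp_mul_neg hw) (exp_neg_mul hw) (nil1 hx)

/-! ### The model -/

section model

variable {G : Type*} [Group G] [TopologicalSpace G] {g : G} (m : Mdl G g N)

lemma V1 : ∀ x ∈ m.V, x ∈ (matFiltR N).F 1 := fun x hx => mem1 (m.supV x hx)

lemma M1 : m.M ∈ (matFiltR N).F 1 := mem1 m.supM

/-- the extension of the Lie algebra by the matrix of the automorphism -/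
def T : Submodule ℝ (Mat N) := TT m.V m.M

lemma T1 : ∀ x ∈ T m, x ∈ (matFiltR N).F 1 := by
  intro u hu
  obtain ⟨x, hx, t, rfl⟩ := mem_TT.1 hu
  exact Submodule.add_mem _ (V1 m x hx) (rsmul_mem t (M1 m))

lemma V_le_T : m.V ≤ T m := V_le_TT _ _

lemma M_mem_T : m.M ∈ T m := M_mem_TT _ _

lemma brTV : ∀ u ∈ T m, ∀ y ∈ m.V, u * y - y * u ∈ m.V := br_TT m.brV m.brM

lemma brTT : ∀ u ∈ T m, ∀ y ∈ T m, u * y - y * u ∈ m.V := br_TT' m.brV m.brM

lemma latV : LieLat (matFiltR N) m.V.toAddSubgroup := lat (V1 m) m.brV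

lemma latT : LieLat (matFiltR N) (T m).toAddSubgroup :=
  lat (T1 m) fun x hx y hy => V_le_T m (brTT m x hx y hy)

lemma idlV : LieIdl N (T m).toAddSubgroup m.V.toAddSubgroup := idl (V_le_T m) (brTV m)

/-- conjugation by elements of the extension preserves `V` -/
lemma conj_mem {w x : Mat N} (hw : w ∈ T m) (hx : x ∈ m.V) :
    IsNilpotent.exp w * x * IsNilpotent.exp (-w) ∈ m.V :=
  conj_mem' (T1 m) (fun x hx y hy => V_le_T m (brTT m x hx y hy)) (V_le_T m) (brTV m) hw hx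

lemma exp_mulV {x y : Mat N} (hx : x ∈ m.V) (hy : y ∈ m.V) :
    ∃ z : m.V, IsNilpotent.exp x * IsNilpotent.exp y = IsNilpotent.exp (z : Mat N) := by
  obtain ⟨z, hz, h⟩ := (latV m).exp_mul hx hy
  exact ⟨⟨z, hz⟩, h⟩

/-- the product of the Lie algebra -/
noncomputable def mulV (x y : m.V) : m.V :=
  ⟨Lg N N (Ex N (x : Mat N) * Ex N (y : Mat N)), by
    obtain ⟨z, hz⟩ := exp_mulV m x.2 y.2
    rw [(matFiltR N).exp_eq (V1 m x x.2), (matFiltR N).exp_eq (V1 m y y.2)] at hz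
    have h1 : Ex N (x : Mat N) * Ex N (y : Mat N) = IsNilpotent.exp (z : Mat N) := hz
    rw [h1, Lg_exp (V1 m z z.2)]
    exact z.2⟩

lemma exp_mulV_eq (x y : m.V) : IsNilpotent.exp (mulV m x y : Mat N) =
    IsNilpotent.exp (x : Mat N) * IsNilpotent.exp (y : Mat N) := by
  obtain ⟨z, hz⟩ := exp_mulV m x.2 y.2
  rw [hz]
  congr 1
  show Lg N N (Ex N (x : Mat N) * Ex N (y : Mat N)) = z
  have h0 := hz
  rw [(matFiltR N).exp_eq (V1 m x x.2), (matFiltR N).exp_eq (V1 m y y.2)] at h0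
  have h1 : Ex N (x : Mat N) * Ex N (y : Mat N) = IsNilpotent.exp (z : Mat N) := h0
  rw [h1, Lg_exp (V1 m z z.2)]

lemma continuous_mulV (x : m.V) : Continuous (mulV m x) := by
  refine Continuous.subtype_mk ?_ _
  refine (Lg_continuous N).comp ?_
  exact continuous_const.mul (Ex_continuous.comp continuous_subtype_val)

lemma mulV_zero (x : m.V) : mulV m x 0 = x := by
  apply Subtype.ext
  apply (matFiltR N).exp_inj (V1 m _ (mulV m x 0).2) (V1 m x x.2)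
  rw [exp_mulV_eq, ZeroMemClass.coe_zero, IsNilpotent.exp_zero, mul_one]

lemma ψ_mul (x y : m.V) : m.ψ x * m.ψ y = m.ψ (mulV m x y) :=
  m.hom x y _ (exp_mulV_eq m x y).symm

lemma ψ_zero : m.ψ 0 = 1 := by
  have h := ψ_mul m 0 0
  rw [mulV_zero] at h
  exact mul_eq_left.1 h

lemma ψ_neg (x : m.V) : m.ψ (-x) = (m.ψ x)⁻¹ := by
  have h := m.hom (-x) x 0 (by
    rw [ZeroMemClass.coe_zero, IsNilpotent.exp_zero]
    exact exp_neg_mul (V1 m x x.2))
  rw [ψ_zero] at h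
  exact eq_inv_of_mul_eq_one_left h

/-- `exp z = exp (-x) exp y` -/
lemma ψ_div (x y z : m.V) (h : IsNilpotent.exp (z : Mat N) =
    IsNilpotent.exp (-(x : Mat N)) * IsNilpotent.exp (y : Mat N)) :
    m.ψ z = (m.ψ x)⁻¹ * m.ψ y := by
  rw [← ψ_neg]
  exact (m.hom (-x) y z h.symm).symm

/-- conjugation by `g` -/
noncomputable def cj (x : m.V) : m.V :=
  ⟨IsNilpotent.exp m.M * x * IsNilpotent.exp (-m.M), conj_mem m (M_mem_T m) x.2⟩

/-- conjugation by `g⁻¹` -/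
noncomputable def cj' (x : m.V) : m.V :=
  ⟨IsNilpotent.exp (-m.M) * x * IsNilpotent.exp m.M, by
    have h := conj_mem m ((T m).neg_mem (M_mem_T m)) x.2
    rwa [neg_neg] at h⟩

lemma exp_cj (x : m.V) : IsNilpotent.exp (cj m x : Mat N) =
    IsNilpotent.exp m.M * IsNilpotent.exp (x : Mat N) * IsNilpotent.exp (-m.M) :=
  exp_conj' (M1 m) (V1 m x x.2)

lemma exp_cj' (x : m.V) : IsNilpotent.exp (cj' m x : Mat N) =
    IsNilpotent.exp (-m.M) * IsNilpotent.exp (x : Mat N) * IsNilpotent.exp m.M := by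
  have h := exp_conj' (Submodule.neg_mem _ (M1 m)) (V1 m x x.2)
  rwa [neg_neg] at h

lemma cj_cj' (x : m.V) : cj m (cj' m x) = x := by
  apply Subtype.ext
  show IsNilpotent.exp m.M * (IsNilpotent.exp (-m.M) * x * IsNilpotent.exp m.M) *
    IsNilpotent.exp (-m.M) = x
  calc _ = (IsNilpotent.exp m.M * IsNilpotent.exp (-m.M)) * x *
        (IsNilpotent.exp m.M * IsNilpotent.exp (-m.M)) := by noncomm_ring
    _ = x := by rw [exp_mul_neg (M1 m), one_mul, mul_one]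

lemma ψ_cj (x : m.V) : m.ψ (cj m x) = g * m.ψ x * g⁻¹ :=
  (m.conj x _ (exp_cj m x).symm).symm

lemma ψ_cj' (x : m.V) : m.ψ (cj' m x) = g⁻¹ * m.ψ x * g := by
  have h := ψ_cj m (cj' m x)
  rw [cj_cj'] at h
  rw [h]
  group

/-- The map to the quotient is open. -/
lemma nhds_ψ [IsTopologicalGroup G] {Γ : Subgroup G} (x0 : G ⧸ Γ) (x : m.V) {W : Set m.V}
    (hW : W ∈ 𝓝 x) : (fun y => m.ψ y • x0) '' W ∈ 𝓝 (m.ψ x • x0) := by
  have h1 : (mulV m x) ⁻¹' W ∈ 𝓝 (0 : m.V) := by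
    apply (continuous_mulV m x).continuousAt.preimage_mem_nhds
    rwa [mulV_zero]
  have h2 := m.opn _ h1
  -- the orbit map is open
  obtain ⟨a, rfl⟩ := QuotientGroup.mk_surjective x0
  have h3 : IsOpenMap fun h : G => h • (QuotientGroup.mk a : G ⧸ Γ) := by
    have h4 : IsOpenMap fun h : G => h * a := isOpenMap_mul_right a
    exact QuotientGroup.isOpenMap_coe.comp h4
  have h5 := h3.image_mem_nhds h2
  rw [one_smul] at h5
  have h6 := (isOpenMap_smul (α := G ⧸ Γ) (m.ψ x)).image_mem_nhds h5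
  refine Filter.mem_of_superset h6 ?_
  rintro _ ⟨_, ⟨_, ⟨z, hz, rfl⟩, rfl⟩, rfl⟩
  refine ⟨mulV m x z, hz, ?_⟩
  show m.ψ (mulV m x z) • (QuotientGroup.mk a : G ⧸ Γ) =
    m.ψ x • (m.ψ z • (QuotientGroup.mk a : G ⧸ Γ))
  rw [← ψ_mul, mul_smul]

lemma isOpenMap_ψ [IsTopologicalGroup G] {Γ : Subgroup G} (x0 : G ⧸ Γ) :
    IsOpenMap fun y => m.ψ y • x0 := by
  rw [isOpenMap_iff_nhds_le]
  intro x s hs
  have h1 := nhds_ψ m x0 x (W := (fun y => m.ψ y • x0) ⁻¹' s) hs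
  exact Filter.mem_of_superset h1 (Set.image_preimage_subset _ _)

lemma continuous_orb [IsTopologicalGroup G] {Γ : Subgroup G} (x0 : G ⧸ Γ) :
    Continuous fun y => m.ψ y • x0 := m.cont.smul continuous_const

end model

end Pool.Agent.TH416.PNW
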